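import Pool.Agent.W340.RA.BoxB
import Pool.Agent.W438.RA.Defs

/-!
# RA-BOX: from a right-angled polytope with an ideal vertex at infinity to the box
-/

set_option autoImplicit false

open MeasureTheory Set Filter Topology

namespace Pool.Agent.W340.RA.Box
open Pool.Agent.W438.RA (S_oct S_box Kmin)

theorem half_iff (c x : Fin 5 → ℝ) (α β t : ℝ) (hβ : 0 < β) (hn : dt c c - 2 * α * β = 1) :
    dt c x - α ≤ β * (dt x x + t ^ 2) / 2 ↔
      (1 / β) ^ 2 ≤ dt (x - β⁻¹ • c) (x - β⁻¹ • c) + t ^ 2 := by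
  have h1 : dt (x - β⁻¹ • c) (x - β⁻¹ • c) = dt x x - 2 * β⁻¹ * dt c x + β⁻¹ ^ 2 * (1 + 2 * α * β) := by
    rw [dt_sub_left, dt_sub_right, dt_sub_right, dt_smul_left, dt_smul_left, dt_smul_right,
      dt_smul_right, dt_comm x c]
    have : dt c c = 1 + 2 * α * β := by linarith
    rw [this]; ring
  rw [h1]
  have h2 : dt x x - 2 * β⁻¹ * dt c x + β⁻¹ ^ 2 * (1 + 2 * α * β) + t ^ 2 - (1 / β) ^ 2 =
      (2 / β) * (β * (dt x x + t ^ 2) / 2 - (dt c x - α)) := by
    field_simp; ring
  constructor
  · intro h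
    have : 0 ≤ (2 / β) * (β * (dt x x + t ^ 2) / 2 - (dt c x - α)) :=
      mul_nonneg (by positivity) (by linarith)
    linarith
  · intro h
    have h3 : 0 ≤ (2 / β) * (β * (dt x x + t ^ 2) / 2 - (dt c x - α)) := by linarith
    have h4 := (mul_nonneg_iff_of_pos_left (by positivity : 0 < 2 / β)).1 h3
    linarith

theorem main_aux (hoct : S_oct) (ι : Type) [Fintype ι] (c : ι → Fin 5 → ℝ) (α β : ι → ℝ)
    (hn : ∀ i, dt (c i) (c i) - 2 * α i * β i = 1) (hβ : ∀ i, 0 ≤ β i)
    (hg : ∀ i i', i ≠ i' → dt (c i) (c i') - α i * β i' - α i' * β i = 0 ∨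
      dt (c i) (c i') - α i * β i' - α i' * β i ≤ -1)
    (hx : ∃ (x : Fin 5 → ℝ) (t : ℝ), 0 < t ∧ ∀ i, dt (c i) x - α i < β i * (dt x x + t ^ 2) / 2)
    (hfin : (∫⁻ x : Fin 5 → ℝ,
        ∫⁻ t in {t : ℝ | 0 < t ∧ ∀ i, dt (c i) x - α i ≤ β i * (dt x x + t ^ 2) / 2},
          ENNReal.ofReal (1 / t ^ 6)) ≠ ⊤) :
    ENNReal.ofReal (16 / 5) * Kmin ≤
      ∫⁻ x : Fin 5 → ℝ,
        ∫⁻ t in {t : ℝ | 0 < t ∧ ∀ i, dt (c i) x - α i ≤ β i * (dt x x + t ^ 2) / 2},
          ENNReal.ofReal (1 / t ^ 6) := by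
  set G : (Fin 5 → ℝ) → ENNReal := fun x =>
    ∫⁻ t in {t : ℝ | 0 < t ∧ ∀ i, dt (c i) x - α i ≤ β i * (dt x x + t ^ 2) / 2},
      ENNReal.ofReal (1 / t ^ 6) with hG
  obtain ⟨x0, t0, ht0, hx0⟩ := hx
  -- the walls
  have hwall : ∀ i, β i = 0 → dt (c i) (c i) = 1 := fun i hi => by
    have := hn i; rw [hi] at this; linarith
  have hx0w : ∀ i, β i = 0 → dt (c i) x0 < α i := fun i hi => by
    have := hx0 i; rw [hi] at this; linarith
  -- finite volume of the base
  have hvol : volume {x : Fin 5 → ℝ | ∀ i, β i = 0 → dt (c i) x ≤ α i} ≠ ⊤ := by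
    have hmeas : MeasurableSet {x : Fin 5 → ℝ | ∀ i, β i = 0 → dt (c i) x ≤ α i} := by
      have h1 : {x : Fin 5 → ℝ | ∀ i, β i = 0 → dt (c i) x ≤ α i} =
          ⋂ i, {x : Fin 5 → ℝ | β i = 0 → dt (c i) x ≤ α i} := by
        ext x; simp
      rw [h1]
      refine MeasurableSet.iInter fun i => ?_
      by_cases hi : β i = 0
      · simp only [hi, true_imp_iff]
        exact (isClosed_le (continuous_dt _) continuous_const).measurableSet
      · simp [hi]
    have hs0 : 0 ≤ ∑ i, (1 / β i) := Finset.sum_nonneg fun i _ => by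
      have := hβ i; positivity
    set R : ℝ := 1 + ∑ i, (1 / β i) with hR
    have hR1 : 1 ≤ R := by linarith
    refine vol_fin G _ hmeas (ENNReal.ofReal (1 / (R + 1) ^ 6)) ?_ ?_ hfin
    · rw [Ne, ENNReal.ofReal_eq_zero, not_le]; positivity
    · intro x hxB
      have hsub : Icc R (R + 1) ⊆
          {t : ℝ | 0 < t ∧ ∀ i, dt (c i) x - α i ≤ β i * (dt x x + t ^ 2) / 2} := by
        intro t ht
        refine ⟨by linarith [ht.1], fun i => ?_⟩
        rcases (hβ i).eq_or_lt with hi | hi
        · have := hxB i hi.symm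
          rw [← hi]; linarith
        · rw [half_iff _ _ _ _ _ hi (hn i)]
          have h1 : 1 / β i ≤ ∑ i, (1 / β i) :=
            Finset.single_le_sum (f := fun i => 1 / β i) (fun i _ => by
              have := hβ i; positivity) (Finset.mem_univ i)
          have h2 : 1 / β i ≤ t := by linarith [ht.1]
          have h3 : 0 < 1 / β i := by positivity
          have h4 := dt_self_nonneg (x - (β i)⁻¹ • c i)
          nlinarith
      calc ENNReal.ofReal (1 / (R + 1) ^ 6)
          = ∫⁻ _ in Icc R (R + 1), ENNReal.ofReal (1 / (R + 1) ^ 6) := by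
            rw [setLIntegral_const, Real.volume_Icc]; simp
        _ ≤ ∫⁻ t in Icc R (R + 1), ENNReal.ofReal (1 / t ^ 6) := by
            refine setLIntegral_mono' measurableSet_Icc fun t ht => ?_
            apply ENNReal.ofReal_le_ofReal
            have : 0 < t := by linarith [ht.1]
            exact one_div_le_one_div_of_le (by positivity) (pow_le_pow_left₀ this.le ht.2 6)
        _ ≤ G x := lintegral_mono_set hsub
  have hesc := no_escape (fun i => β i = 0) c α x0 hx0w hvol
  obtain ⟨u, hu, hup, hum, huw⟩ := basis (fun i => β i = 0) c hwall (fun i i' hi hi' hne => by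
    have := hg i i' hne; simp only [hi, hi', mul_zero, sub_zero] at this; exact this) hesc
  choose P hP0 hP using hup
  choose N hN0 hN using hum
  -- the sides of the box
  set b : Fin 5 → ℝ := fun k => α (P k) with hb
  set a : Fin 5 → ℝ := fun k => - α (N k) with ha
  have hab : ∀ k, a k < b k := fun k => by
    have h1 := hx0w _ (hP0 k)
    have h2 := hx0w _ (hN0 k)
    rw [hP] at h1
    rw [hN, dt_neg_left] at h2
    simp only [ha, hb]; linarith
  have hBox : ∀ x : Fin 5 → ℝ, (∀ k, a k ≤ dt (u k) x ∧ dt (u k) x ≤ b k) →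
      ∀ i, β i = 0 → dt (c i) x ≤ α i := by
    intro x hx i hi
    obtain ⟨k, hk | hk⟩ := huw i hi
    · have : i = P k := by
        by_contra hne
        have h1 := hg i (P k) hne
        rw [hi, hP0 k, hP k, hk, hu k k] at h1
        simp at h1
        linarith
      rw [this, hP]; exact (hx k).2
    · have : i = N k := by
        by_contra hne
        have h1 := hg i (N k) hne
        rw [hi, hN0 k, hN k, hk, dt_neg_left, dt_neg_right, hu k k] at h1
        simp at h1
        linarith
      rw [this, hN, dt_neg_left]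
      have := (hx k).1
      simp only [ha] at this; linarith
  -- the smallest side
  obtain ⟨j, -, hj⟩ := Finset.exists_min_image Finset.univ (fun k => b k - a k) ⟨0, Finset.mem_univ 0⟩
  set lam : ℝ := b j - a j with hlam
  have hl0 : 0 < lam := by have := hab j; linarith
  -- the spheres
  have hoct' := hoct {i // 0 < β i} (fun i k => (dt (u k) ((β i)⁻¹ • c i) - a k) / lam)
    (fun i => (1 / β i) / lam) (fun k => (b k - a k) / lam) j
    (fun i => by have := i.2; positivity)
    (fun k => by rw [le_div_iff₀ hl0, one_mul]; exact hj k (Finset.mem_univ k))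
    (div_self hl0.ne')
    (fun i k => by
      have hne : N k ≠ i.1 := by
        intro h; have := i.2; rw [← h, hN0] at this; exact lt_irrefl _ this
      have h1 := hg _ _ hne
      rw [hN, hN0, dt_neg_left] at h1
      have hi := i.2
      have h2 : (dt (u k) ((β i)⁻¹ • c i) - a k) = (dt (u k) (c i) + α (N k) * β i) / β i := by
        rw [dt_smul_right]; simp only [ha]; field_simp; ring
      rcases h1 with h1 | h1
      · left
        rw [h2]
        have : dt (u k) (c i) + α (N k) * β i = 0 := by linarith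
        rw [this]; simp
      · right
        rw [h2]
        apply div_le_div_of_nonneg_right _ hl0.le
        apply div_le_div_of_nonneg_right _ hi.le
        linarith)
    (fun i k => by
      have hne : P k ≠ i.1 := by
        intro h; have := i.2; rw [← h, hP0] at this; exact lt_irrefl _ this
      have h1 := hg _ _ hne
      rw [hP, hP0] at h1
      have hi := i.2
      have h2 : (dt (u k) ((β i)⁻¹ • c i) - a k) =
          (b k - a k) + (dt (u k) (c i) - α (P k) * β i) / β i := by
        rw [dt_smul_right]; simp only [hb]; field_simp; ring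
      rcases h1 with h1 | h1
      · left
        rw [h2]
        have : dt (u k) (c i) - α (P k) * β i = 0 := by linarith
        rw [this]; simp
      · right
        rw [h2, ← sub_div]
        apply div_le_div_of_nonneg_right _ hl0.le
        have h3 : (dt (u k) (c i) - α (P k) * β i) / β i ≤ (-1) / β i :=
          div_le_div_of_nonneg_right (by linarith) hi.le
        rw [neg_div] at h3
        linarith)
    (fun i i' hne => by
      have hi := i.2
      have hi' := i'.2
      have h1 : dt (c i) (c i') - α i * β i' - α i' * β i ≤ 0 := by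
        rcases hg i i' (fun h => hne (Subtype.ext h)) with h | h <;> linarith
      set p := (β i)⁻¹ • c i with hp
      set p' := (β i')⁻¹ • c i' with hp'
      have h2 : ∑ k, ((dt (u k) p - a k) / lam - (dt (u k) p' - a k) / lam) ^ 2 =
          dt (p - p') (p - p') / lam ^ 2 := by
        rw [← dt_coords u hu (p - p') (p - p'), Finset.sum_div]
        refine Finset.sum_congr rfl fun k _ => ?_
        rw [dt_sub_right]; field_simp; ring
      rw [h2]
      have h3 : (1 / β i / lam) ^ 2 + (1 / β i' / lam) ^ 2 =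
          ((1 / β i) ^ 2 + (1 / β i') ^ 2) / lam ^ 2 := by field_simp
      rw [h3]
      apply div_le_div_of_nonneg_right _ (by positivity)
      have h4 : dt (p - p') (p - p') = (β i)⁻¹ ^ 2 * dt (c i) (c i) +
          (β i')⁻¹ ^ 2 * dt (c i') (c i') - 2 * (β i)⁻¹ * (β i')⁻¹ * dt (c i) (c i') := by
        rw [dt_sub_left, dt_sub_right, dt_sub_right, hp, hp', dt_smul_left, dt_smul_left,
          dt_smul_left, dt_smul_left, dt_smul_right, dt_smul_right, dt_smul_right, dt_smul_right,
          dt_comm (c i') (c i)]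
        ring
      have h5 : dt (c i) (c i) = 1 + 2 * α i * β i := by have := hn i; linarith
      have h6 : dt (c i') (c i') = 1 + 2 * α i' * β i' := by have := hn i'; linarith
      have h7 : dt (p - p') (p - p') - ((1 / β i) ^ 2 + (1 / β i') ^ 2) =
          2 * (β i)⁻¹ * (β i')⁻¹ * (-(dt (c i) (c i') - α i * β i' - α i' * β i)) := by
        rw [h4, h5, h6]; field_simp; ring
      have h8 : 0 ≤ 2 * (β i)⁻¹ * (β i')⁻¹ * (-(dt (c i) (c i') - α i * β i' - α i' * β i)) :=
        mul_nonneg (by positivity) (by linarith)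
      linarith)
  refine hoct'.trans ?_
  -- the change of variables
  rw [chg u hu a lam hl0 G]
  have hinner : ∀ y ∈ Icc (0 : Fin 5 → ℝ) (fun k => (b k - a k) / lam),
      G ((MM u).mulVec (a + lam • y)) = ENNReal.ofReal ((lam ^ 5)⁻¹) *
        ∫⁻ t in {t : ℝ | 0 < t ∧ ∀ i : {i // 0 < β i}, (1 / β i / lam) ^ 2 ≤
          ∑ k, (y k - (dt (u k) ((β i)⁻¹ • c i) - a k) / lam) ^ 2 + t ^ 2},
          ENNReal.ofReal (1 / t ^ 6) := by
    intro y hy
    set x := (MM u).mulVec (a + lam • y) with hxdef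
    have hxk : ∀ k, dt (u k) x = a k + lam * y k := fun k => by
      rw [hxdef, dt_MM u hu]; simp
    have hxB : ∀ i, β i = 0 → dt (c i) x ≤ α i := by
      apply hBox
      intro k
      rw [hxk]
      have h1 := hy.1 k
      have h2 := hy.2 k
      simp only [Pi.zero_apply] at h1
      rw [le_div_iff₀ hl0] at h2
      constructor <;> nlinarith
    have hmeasA : MeasurableSet {t : ℝ | 0 < t ∧ ∀ i : {i // 0 < β i}, (1 / β i / lam) ^ 2 ≤
          ∑ k, (y k - (dt (u k) ((β i)⁻¹ • c i) - a k) / lam) ^ 2 + t ^ 2} := by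
      have h1 : {t : ℝ | 0 < t ∧ ∀ i : {i // 0 < β i}, (1 / β i / lam) ^ 2 ≤
          ∑ k, (y k - (dt (u k) ((β i)⁻¹ • c i) - a k) / lam) ^ 2 + t ^ 2} =
          Ioi 0 ∩ ⋂ i : {i // 0 < β i}, {t : ℝ | (1 / β i / lam) ^ 2 ≤
          ∑ k, (y k - (dt (u k) ((β i)⁻¹ • c i) - a k) / lam) ^ 2 + t ^ 2} := by
        ext t; simp
      rw [h1]
      refine measurableSet_Ioi.inter (MeasurableSet.iInter fun i => ?_)
      exact (isClosed_le continuous_const (by fun_prop)).measurableSet
    rw [← chg_t _ hmeasA lam hl0]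
    have hset : {t : ℝ | 0 < t ∧ ∀ i, dt (c i) x - α i ≤ β i * (dt x x + t ^ 2) / 2} =
        (fun t => lam * t) '' {t : ℝ | 0 < t ∧ ∀ i : {i // 0 < β i}, (1 / β i / lam) ^ 2 ≤
          ∑ k, (y k - (dt (u k) ((β i)⁻¹ • c i) - a k) / lam) ^ 2 + t ^ 2} := by
      have hkey : ∀ (t : ℝ) (i : {i // 0 < β i}),
          (dt (c i) x - α i ≤ β i * (dt x x + (lam * t) ^ 2) / 2 ↔
          (1 / β i / lam) ^ 2 ≤
          ∑ k, (y k - (dt (u k) ((β i)⁻¹ • c i) - a k) / lam) ^ 2 + t ^ 2) := by
        intro t i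
        rw [half_iff _ _ _ _ _ i.2 (hn i)]
        have h1 : ∑ k, (y k - (dt (u k) ((β i)⁻¹ • c i) - a k) / lam) ^ 2 =
            dt (x - (β i)⁻¹ • c i) (x - (β i)⁻¹ • c i) / lam ^ 2 := by
          rw [← dt_coords u hu, Finset.sum_div]
          refine Finset.sum_congr rfl fun k _ => ?_
          rw [dt_sub_right, hxk]; field_simp; ring
        rw [h1]
        have h2 : dt (x - (β i)⁻¹ • c i) (x - (β i)⁻¹ • c i) / lam ^ 2 + t ^ 2 =
          (dt (x - (β i)⁻¹ • c i) (x - (β i)⁻¹ • c i) + (lam * t) ^ 2) / lam ^ 2 := by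
          field_simp
        rw [h2, div_pow (1 / β i) lam 2, div_le_div_iff_of_pos_right (by positivity)]
      ext t
      constructor
      · rintro ⟨ht, h⟩
        refine ⟨t / lam, ⟨by positivity, fun i => ?_⟩, by simp only []; field_simp⟩
        rw [← hkey]
        have : lam * (t / lam) = t := by field_simp
        rw [this]; exact h i
      · rintro ⟨t', ⟨ht', h⟩, rfl⟩
        refine ⟨mul_pos hl0 ht', fun i => ?_⟩
        rcases (hβ i).eq_or_lt with hi | hi
        · have := hxB i hi.symm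
          rw [← hi]; linarith
        · exact (hkey t' ⟨i, hi⟩).2 (h ⟨i, hi⟩)
    simp only [hG]
    rw [hset]
  calc _ = ENNReal.ofReal (lam ^ 5) * ∫⁻ y in Icc (0 : Fin 5 → ℝ) (fun k => (b k - a k) / lam),
        G ((MM u).mulVec (a + lam • y)) := by
        rw [setLIntegral_congr_fun measurableSet_Icc hinner,
          lintegral_const_mul' _ _ ENNReal.ofReal_ne_top, ← mul_assoc,
          ← ENNReal.ofReal_mul (by positivity), mul_inv_cancel₀ (by positivity),
          ENNReal.ofReal_one, one_mul]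
    _ ≤ _ := mul_le_mul_right (setLIntegral_le_lintegral _ _) _

theorem main (hoct : S_oct) : S_box := by
  intro ι _ c α β hn hβ hg hx hfin
  have e1 : ∀ u : Fin 5 → ℝ, ∑ k, u k ^ 2 = dt u u := fun u =>
    Finset.sum_congr rfl fun k _ => sq _
  have e2 : ∀ u v : Fin 5 → ℝ, ∑ k, u k * v k = dt u v := fun _ _ => rfl
  simp only [e1, e2] at hn hg hx hfin ⊢
  exact main_aux hoct ι c α β hn hβ hg hx hfin

end Pool.Agent.W340.RA.Box
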