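import Mathlib

/-!
# RA-BOX: walls of a box (linear algebra)
-/

set_option autoImplicit false

open MeasureTheory Set Filter Topology

namespace Pool.Agent.W340.RA.Box

/-- dot product -/
def dt (u v : Fin 5 → ℝ) : ℝ := ∑ k, u k * v k

theorem dt_comm (u v : Fin 5 → ℝ) : dt u v = dt v u := by
  unfold dt; exact Finset.sum_congr rfl fun k _ => mul_comm _ _

theorem dt_neg_left (u v : Fin 5 → ℝ) : dt (-u) v = - dt u v := by
  simp [dt]

theorem dt_neg_right (u v : Fin 5 → ℝ) : dt u (-v) = - dt u v := by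
  simp [dt]

theorem dt_add_left (u v w : Fin 5 → ℝ) : dt (u + v) w = dt u w + dt v w := by
  simp only [dt, Pi.add_apply, add_mul, Finset.sum_add_distrib]

theorem dt_add_right (u v w : Fin 5 → ℝ) : dt u (v + w) = dt u v + dt u w := by
  rw [dt_comm, dt_add_left, dt_comm v, dt_comm w]

theorem dt_smul_left (s : ℝ) (u v : Fin 5 → ℝ) : dt (s • u) v = s * dt u v := by
  simp only [dt, Pi.smul_apply, smul_eq_mul, Finset.mul_sum, mul_assoc]

theorem dt_smul_right (s : ℝ) (u v : Fin 5 → ℝ) : dt u (s • v) = s * dt u v := by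
  rw [dt_comm, dt_smul_left, dt_comm]

theorem dt_sub_left (u v w : Fin 5 → ℝ) : dt (u - v) w = dt u w - dt v w := by
  simp only [dt, Pi.sub_apply, sub_mul, Finset.sum_sub_distrib]

theorem dt_sub_right (u v w : Fin 5 → ℝ) : dt u (v - w) = dt u v - dt u w := by
  rw [dt_comm, dt_sub_left, dt_comm v, dt_comm w]

theorem dt_self_nonneg (u : Fin 5 → ℝ) : 0 ≤ dt u u :=
  Finset.sum_nonneg fun _ _ => mul_self_nonneg _

theorem dt_self_eq_zero {u : Fin 5 → ℝ} (h : dt u u = 0) : u = 0 := by
  funext k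
  have h1 := (Finset.sum_eq_zero_iff_of_nonneg (fun k _ => mul_self_nonneg (u k))).1 h k
    (Finset.mem_univ k)
  simpa using h1

/-- unit vectors with product `≤ -1` are opposite -/
theorem opp {u v : Fin 5 → ℝ} (hu : dt u u = 1) (hv : dt v v = 1) (h : dt u v ≤ -1) : v = -u := by
  have h1 : dt (v + u) (v + u) = 0 := by
    have h2 : dt (v + u) (v + u) = dt u u + dt v v + 2 * dt u v := by
      rw [dt_add_left, dt_add_right, dt_add_right, dt_comm v u]; ring
    have h3 := dt_self_nonneg (v + u)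
    rw [h2, hu, hv] at h3 ⊢
    linarith
  exact eq_neg_of_add_eq_zero_left (dt_self_eq_zero h1)

/-- the matrix with the columns `u k` -/
def MM (u : Fin 5 → Fin 5 → ℝ) : Matrix (Fin 5) (Fin 5) ℝ := Matrix.of fun i k => u k i

theorem MM_mulVec (u : Fin 5 → Fin 5 → ℝ) (y : Fin 5 → ℝ) : (MM u).mulVec y = ∑ k, y k • u k := by
  funext i
  simp [MM, Matrix.mulVec, dotProduct, Finset.sum_apply, mul_comm]

theorem MMT_mulVec (u : Fin 5 → Fin 5 → ℝ) (y : Fin 5 → ℝ) :
    (MM u).transpose.mulVec y = fun k => dt (u k) y := by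
  funext k
  simp [MM, Matrix.mulVec, dotProduct, dt]

theorem MMT_mul (u : Fin 5 → Fin 5 → ℝ) (hu : ∀ k l, dt (u k) (u l) = if k = l then 1 else 0) :
    (MM u).transpose * (MM u) = 1 := by
  ext k l
  rw [Matrix.mul_apply, Matrix.one_apply, ← hu k l]
  simp [MM, dt]

theorem MM_mulT (u : Fin 5 → Fin 5 → ℝ) (hu : ∀ k l, dt (u k) (u l) = if k = l then 1 else 0) :
    (MM u) * (MM u).transpose = 1 := by
  exact mul_eq_one_comm.1 (MMT_mul u hu)

/-- coordinates in the orthonormal basis -/
theorem dt_coords (u : Fin 5 → Fin 5 → ℝ) (hu : ∀ k l, dt (u k) (u l) = if k = l then 1 else 0)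
    (v w : Fin 5 → ℝ) : ∑ k, dt (u k) v * dt (u k) w = dt v w := by
  have h1 : dt v w = dotProduct v w := rfl
  have h2 : ∑ k, dt (u k) v * dt (u k) w =
      dotProduct ((MM u).transpose.mulVec v) ((MM u).transpose.mulVec w) := by
    rw [MMT_mulVec, MMT_mulVec]; rfl
  rw [h1, h2, Matrix.dotProduct_mulVec, ← Matrix.mulVec_transpose, Matrix.transpose_transpose,
    Matrix.mulVec_mulVec, MM_mulT u hu, Matrix.one_mulVec]

theorem dt_MM (u : Fin 5 → Fin 5 → ℝ) (hu : ∀ k l, dt (u k) (u l) = if k = l then 1 else 0)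
    (y : Fin 5 → ℝ) (k : Fin 5) : dt (u k) ((MM u).mulVec y) = y k := by
  have h : (MM u).transpose.mulVec ((MM u).mulVec y) = y := by
    rw [Matrix.mulVec_mulVec, MMT_mul u hu, Matrix.one_mulVec]
  rw [MMT_mulVec] at h
  exact congrFun h k

theorem det_MM (u : Fin 5 → Fin 5 → ℝ) (hu : ∀ k l, dt (u k) (u l) = if k = l then 1 else 0) :
    |(MM u).det| = 1 := by
  have h := congrArg Matrix.det (MMT_mul u hu)
  rw [Matrix.det_mul, Matrix.det_transpose, Matrix.det_one] at h
  have h1 : |(MM u).det| * |(MM u).det| = 1 := by rw [← abs_mul, h, abs_one]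
  nlinarith [abs_nonneg (MM u).det]

/-- the orthonormal basis -/
theorem basis {ι : Type} (W : ι → Prop) (c : ι → Fin 5 → ℝ) (h1 : ∀ i, W i → dt (c i) (c i) = 1)
    (h2 : ∀ i i', W i → W i' → i ≠ i' → dt (c i) (c i') = 0 ∨ dt (c i) (c i') ≤ -1)
    (h3 : ∀ v, v ≠ 0 → ∃ i, W i ∧ 0 < dt (c i) v) :
    ∃ u : Fin 5 → Fin 5 → ℝ, (∀ k l, dt (u k) (u l) = if k = l then 1 else 0) ∧
      (∀ k, ∃ i, W i ∧ c i = u k) ∧ (∀ k, ∃ i, W i ∧ c i = - u k) ∧
      (∀ i, W i → ∃ k, c i = u k ∨ c i = - u k) := by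
  have htop : Submodule.span ℝ (c '' {i | W i}) = ⊤ := by
    by_contra hne
    obtain ⟨f, hf, hle⟩ := Submodule.exists_le_ker_of_lt_top _ (lt_top_iff_ne_top.2 hne)
    have hfv : ∀ x : Fin 5 → ℝ, f x = dt x (fun k => f (Pi.single k 1)) := by
      intro x
      rw [LinearMap.pi_apply_eq_sum_univ f x]
      simp only [dt, smul_eq_mul]
      refine Finset.sum_congr rfl fun k _ => ?_
      congr 2
      funext j
      rw [Pi.single_apply]
      simp [eq_comm]
    have hv : (fun k => f (Pi.single k 1)) ≠ (0 : Fin 5 → ℝ) := by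
      intro h0
      apply hf
      ext x
      have := hfv (Pi.single x 1)
      rw [h0] at this
      simpa [dt] using this
    obtain ⟨i, hi, hpos⟩ := h3 _ hv
    rw [← hfv] at hpos
    have h4 : c i ∈ LinearMap.ker f := hle (Submodule.subset_span ⟨i, hi, rfl⟩)
    rw [LinearMap.mem_ker] at h4
    linarith
  obtain ⟨b, hbN, hspan, hli⟩ := exists_linearIndependent ℝ (c '' {i | W i})
  rw [htop] at hspan
  let B : Module.Basis b ℝ (Fin 5 → ℝ) := Module.Basis.mk hli (by
    rw [Subtype.range_coe_subtype]; exact hspan.ge)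
  have : Fintype b := FiniteDimensional.fintypeBasisIndex B
  have hcard : Fintype.card b = Fintype.card (Fin 5) := by
    rw [← Module.finrank_eq_card_basis B, Module.finrank_fin_fun, Fintype.card_fin]
  let e : Fin 5 ≃ b := (Fintype.equivOfCardEq hcard).symm
  have hli' : LinearIndependent ℝ (fun k : Fin 5 => ((e k : b) : Fin 5 → ℝ)) :=
    hli.comp e e.injective
  refine ⟨fun k => ((e k : b) : Fin 5 → ℝ), ?_⟩
  have hW : ∀ k, ∃ i, W i ∧ c i = ((e k : b) : Fin 5 → ℝ) := fun k => by
    obtain ⟨i, hi, h⟩ := hbN (e k).2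
    exact ⟨i, hi, h⟩
  have horth : ∀ k l, dt ((e k : b) : Fin 5 → ℝ) ((e l : b) : Fin 5 → ℝ) = if k = l then 1 else 0 := by
    intro k l
    obtain ⟨i, hi, hik⟩ := hW k
    obtain ⟨i', hi', hil⟩ := hW l
    split_ifs with hkl
    · subst hkl
      rw [← hik]; exact h1 i hi
    · have hii : i ≠ i' := by
        rintro rfl
        apply hkl
        exact hli'.injective (by simpa using hik.symm.trans hil)
      rw [← hik, ← hil]
      rcases h2 i i' hi hi' hii with h | h
      · exact h
      · exfalso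
        have h4 := opp (h1 i hi) (h1 i' hi') h
        rw [hik, hil] at h4
        have h5 := (Fintype.linearIndependent_iff.1 hli') (fun m => if m = k ∨ m = l then 1 else 0) (by
          have h6 : ∀ m, (if m = k ∨ m = l then (1 : ℝ) else 0) =
              (if m = k then 1 else 0) + (if m = l then 1 else 0) := by
            intro m
            by_cases hm : m = k
            · have : ¬ m = l := fun h => hkl (hm ▸ h)
              simp [hm, hkl]
            · simp [hm]
          simp only [h6, add_smul, Finset.sum_add_distrib, ite_smul, one_smul, zero_smul,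
            Finset.sum_ite_eq', Finset.mem_univ, if_true]
          rw [h4]; simp) k
        simp at h5
  refine ⟨horth, hW, ?_, ?_⟩
  · intro k
    have hne : -((e k : b) : Fin 5 → ℝ) ≠ 0 := by
      intro h0
      have h4 := horth k k
      rw [neg_eq_zero.1 h0] at h4
      simp [dt] at h4
    obtain ⟨i, hi, hpos⟩ := h3 _ hne
    rw [dt_neg_right] at hpos
    obtain ⟨i0, hi0, hik⟩ := hW k
    rw [← hik] at hpos
    have hii : i0 ≠ i := by
      rintro rfl
      rw [h1 _ hi0] at hpos
      linarith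
    refine ⟨i, hi, ?_⟩
    rcases h2 i0 i hi0 hi hii with h | h
    · rw [dt_comm, h] at hpos; linarith
    · show c i = -((e k : b) : Fin 5 → ℝ)
      rw [← hik]; exact opp (h1 _ hi0) (h1 _ hi) h
  · intro i hi
    have h4 := dt_coords _ horth (c i) (c i)
    rw [h1 i hi] at h4
    obtain ⟨k, hk⟩ : ∃ k, dt ((e k : b) : Fin 5 → ℝ) (c i) ≠ 0 := by
      by_contra hcon
      push Not at hcon
      simp [hcon] at h4
    refine ⟨k, ?_⟩
    obtain ⟨i0, hi0, hik⟩ := hW k
    by_cases hii : i0 = i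
    · subst hii; exact Or.inl hik
    · show c i = ((e k : b) : Fin 5 → ℝ) ∨ c i = -((e k : b) : Fin 5 → ℝ)
      rw [← hik] at hk ⊢
      rcases h2 i0 i hi0 hi hii with h | h
      · exact absurd h hk
      · exact Or.inr (opp (h1 _ hi0) (h1 _ hi) h)

end Pool.Agent.W340.RA.Box
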