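import Pool.Agent.W340.RA.BoxA

/-!
# RA-BOX: measure theory
-/

set_option autoImplicit false

open MeasureTheory Set Filter Topology

namespace Pool.Agent.W340.RA.Box

theorem continuous_dt (u : Fin 5 → ℝ) : Continuous (dt u) := by
  unfold dt; fun_prop

/-- no direction of recession -/
theorem no_escape {ι : Type} [Fintype ι] (W : ι → Prop) (c : ι → Fin 5 → ℝ) (α : ι → ℝ)
    (x0 : Fin 5 → ℝ) (hx0 : ∀ i, W i → dt (c i) x0 < α i)
    (hfin : volume {x : Fin 5 → ℝ | ∀ i, W i → dt (c i) x ≤ α i} ≠ ⊤) :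
    ∀ v, v ≠ 0 → ∃ i, W i ∧ 0 < dt (c i) v := by
  intro v hv
  by_contra hcon
  push Not at hcon
  have hopen : IsOpen {x : Fin 5 → ℝ | ∀ i, W i → dt (c i) x < α i} := by
    have h1 : {x : Fin 5 → ℝ | ∀ i, W i → dt (c i) x < α i} =
        ⋂ i, {x : Fin 5 → ℝ | W i → dt (c i) x < α i} := by
      ext x; simp
    rw [h1]
    refine isOpen_iInter_of_finite fun i => ?_
    by_cases hi : W i
    · simp only [hi, true_imp_iff]
      exact isOpen_lt (continuous_dt _) continuous_const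
    · simp [hi]
  obtain ⟨ε, hε, hball⟩ := Metric.isOpen_iff.1 hopen x0 hx0
  have hnv : 0 < ‖v‖ := norm_pos_iff.2 hv
  set w : Fin 5 → ℝ := (2 * ε / ‖v‖) • v with hw
  have hwn : ‖w‖ = 2 * ε := by
    rw [hw, norm_smul, Real.norm_of_nonneg (by positivity), div_mul_cancel₀ _ hnv.ne']
  have hsub : ∀ n : ℕ, Metric.ball (x0 + (n : ℝ) • w) ε ⊆
      {x : Fin 5 → ℝ | ∀ i, W i → dt (c i) x ≤ α i} := by
    intro n x hx i hi
    have h1 : x - (n : ℝ) • w ∈ Metric.ball x0 ε := by
      rw [Metric.mem_ball, dist_eq_norm] at hx ⊢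
      have h2 : x - (n : ℝ) • w - x0 = x - (x0 + (n : ℝ) • w) := by abel
      rw [h2]; exact hx
    have h2 := hball h1 i hi
    have h3 : dt (c i) ((n : ℝ) • w) ≤ 0 := by
      rw [hw, dt_smul_right, dt_smul_right]
      have h4 := hcon i hi
      have h5 : 0 ≤ (n : ℝ) := Nat.cast_nonneg n
      have h6 : 0 ≤ 2 * ε / ‖v‖ := by positivity
      exact mul_nonpos_of_nonneg_of_nonpos h5 (mul_nonpos_of_nonneg_of_nonpos h6 h4)
    rw [dt_sub_right] at h2
    linarith
  have hdisj : Pairwise (Function.onFun Disjoint fun n : ℕ => Metric.ball (x0 + (n : ℝ) • w) ε) := by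
    intro n m hnm
    apply Metric.ball_disjoint_ball
    rw [dist_eq_norm]
    have h1 : x0 + (n : ℝ) • w - (x0 + (m : ℝ) • w) = ((n : ℝ) - m) • w := by
      rw [sub_smul]; abel
    rw [h1, norm_smul, hwn, Real.norm_eq_abs]
    have h2 : (1 : ℝ) ≤ |(n : ℝ) - m| := by
      have h3 : ((n : ℤ) - m : ℤ) ≠ 0 := by omega
      have h4 := Int.one_le_abs h3
      have h5 : ((1 : ℤ) : ℝ) ≤ ((|(n : ℤ) - m| : ℤ) : ℝ) := by exact_mod_cast h4
      simpa using h5
    nlinarith
  have hsum : ∑' n : ℕ, volume (Metric.ball (x0 + (n : ℝ) • w) ε) ≤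
      volume {x : Fin 5 → ℝ | ∀ i, W i → dt (c i) x ≤ α i} := by
    rw [← measure_iUnion hdisj fun n => measurableSet_ball]
    exact measure_mono (iUnion_subset hsub)
  have hconst : ∀ n : ℕ, volume (Metric.ball (x0 + (n : ℝ) • w) ε) =
      volume (Metric.ball (0 : Fin 5 → ℝ) ε) := fun n => Measure.addHaar_ball_center _ _ _
  rw [tsum_congr hconst,
    ENNReal.tsum_const_eq_top_of_ne_zero (Metric.measure_ball_pos _ _ hε).ne'] at hsum
  exact hfin (top_le_iff.1 hsum)

theorem vol_fin (G : (Fin 5 → ℝ) → ENNReal) (B : Set (Fin 5 → ℝ)) (hB : MeasurableSet B)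
    (κ : ENNReal) (hκ : κ ≠ 0) (hG : ∀ x ∈ B, κ ≤ G x) (hfin : ∫⁻ x, G x ≠ ⊤) : volume B ≠ ⊤ := by
  intro htop
  apply hfin
  have h1 : ∫⁻ _ in B, κ ≤ ∫⁻ x in B, G x := setLIntegral_mono' hB hG
  rw [setLIntegral_const, htop, ENNReal.mul_top hκ] at h1
  exact top_le_iff.1 (h1.trans (setLIntegral_le_lintegral _ _))

/-- affine change of variables -/
theorem chg (u : Fin 5 → Fin 5 → ℝ) (hu : ∀ k l, dt (u k) (u l) = if k = l then 1 else 0)
    (a : Fin 5 → ℝ) (lam : ℝ) (hlam : 0 < lam) (G : (Fin 5 → ℝ) → ENNReal) :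
    ∫⁻ x, G x = ENNReal.ofReal (lam ^ 5) * ∫⁻ y, G ((MM u).mulVec (a + lam • y)) := by
  set f : (Fin 5 → ℝ) → (Fin 5 → ℝ) := fun y => (MM u).mulVec (a + lam • y) with hf
  let L : (Fin 5 → ℝ) →L[ℝ] (Fin 5 → ℝ) :=
    LinearMap.toContinuousLinearMap (Matrix.toLin' (lam • MM u))
  have hfL : f = fun y => L y + (MM u).mulVec a := by
    funext y
    simp only [hf, L, LinearMap.coe_toContinuousLinearMap', Matrix.toLin'_apply]
    rw [Matrix.mulVec_add, Matrix.mulVec_smul, Matrix.smul_mulVec, add_comm]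
  have hder : ∀ x ∈ (univ : Set (Fin 5 → ℝ)), HasFDerivWithinAt f L univ x := by
    intro x _
    rw [hfL]
    exact (L.hasFDerivAt.add_const _).hasFDerivWithinAt
  have hinj : Function.Injective f := by
    intro y z hyz
    have h1 : (MM u).transpose.mulVec (f y) = (MM u).transpose.mulVec (f z) := by rw [hyz]
    simp only [hf, Matrix.mulVec_mulVec, MMT_mul u hu, Matrix.one_mulVec] at h1
    have h2 := add_left_cancel h1
    exact smul_right_injective _ hlam.ne' h2
  have hsurj : f '' univ = univ := by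
    rw [image_univ, range_eq_univ]
    intro x
    refine ⟨lam⁻¹ • ((MM u).transpose.mulVec x - a), ?_⟩
    simp only [hf]
    rw [smul_smul, mul_inv_cancel₀ hlam.ne', one_smul, add_sub_cancel, Matrix.mulVec_mulVec,
      MM_mulT u hu, Matrix.one_mulVec]
  have hdet : |L.det| = lam ^ 5 := by
    simp only [L, LinearMap.det_toContinuousLinearMap, LinearMap.det_toLin']
    rw [Matrix.det_smul, Fintype.card_fin, abs_mul, det_MM u hu, mul_one, abs_of_pos (by positivity)]
  have h := lintegral_image_eq_lintegral_abs_det_fderiv_mul (μ := volume) MeasurableSet.univ hder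
    hinj.injOn G
  rw [hsurj, setLIntegral_univ, setLIntegral_univ, hdet,
    lintegral_const_mul' _ _ ENNReal.ofReal_ne_top] at h
  exact h

/-- change of variables in the last coordinate -/
theorem chg_t (A : Set ℝ) (hA : MeasurableSet A) (lam : ℝ) (hlam : 0 < lam) :
    ∫⁻ t in (fun t => lam * t) '' A, ENNReal.ofReal (1 / t ^ 6) =
      ENNReal.ofReal ((lam ^ 5)⁻¹) * ∫⁻ t in A, ENNReal.ofReal (1 / t ^ 6) := by
  rw [lintegral_image_eq_lintegral_abs_deriv_mul (f' := fun _ => lam) hA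
    (fun x _ => by simpa using ((hasDerivAt_id x).const_mul lam).hasDerivWithinAt)
    (fun x _ y _ h => mul_left_cancel₀ hlam.ne' h), ← lintegral_const_mul' _ _ ENNReal.ofReal_ne_top]
  refine lintegral_congr fun t => ?_
  rw [← ENNReal.ofReal_mul (abs_nonneg _), ← ENNReal.ofReal_mul (by positivity), abs_of_pos hlam]
  congr 1
  field_simp

end Pool.Agent.W340.RA.Box
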